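import Pool.Agent.U644.MW.Core

/-!
# The monodromy-weight conjecture and products with a test variety: main theorem
-/

set_option autoImplicit false

open Module TensorProduct

namespace Pool.Agent.U644.MW

universe u v w

open Pool.Agent.H914 Pool.Agent.Y143 Pool.Agent.Y163.MW Pool.Agent.Y163.MW.Coh

variable {Ω : Type w} [Field Ω] [CharZero Ω] [IsAlgClosed Ω] {R : Coh.{v, w} Ω} {q : ℕ}

/-- The invariants are bounded if and only if the kernel of `N` has excess at most zero. -/
lemma bounded_iff (hq : 1 < q) (hR : R.IsCoh q) : InvariantsBounded R q ↔ P R q 0 := by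
  classical
  have := hR.finite
  have hind := hR.isInternal.submodule_iSupIndep
  rw [iSupIndep_iff_finsetSum_eq_zero_imp_eq_zero] at hind
  constructor
  · intro h c hc x hx h0
    rw [zero_add, pow_one] at h0
    -- decomposition
    obtain ⟨f, hf, hfx⟩ := (Submodule.mem_iSup_iff_exists_finsupp _ _).1 hx
    have hfx' : ∑ m ∈ f.support, f m = x := hfx
    have h1 : ∀ m ∈ f.support, R.N (f m) = 0 := by
      refine hind f.support _ (fun m _ => hR.N_gr m _ (exc_le m c (hf m))) ?_
      rw [← map_sum, hfx', h0]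
    rw [← hfx']
    refine Finset.sum_eq_zero fun m hm => ?_
    by_contra h2
    -- an eigenvector
    let S : Submodule Ω R.V := R.exc q m c ⊓ LinearMap.ker R.N
    have hS : ∀ y ∈ S, R.F y ∈ S := by
      intro y hy
      obtain ⟨h3, h4⟩ := Submodule.mem_inf.1 hy
      refine Submodule.mem_inf.2 ⟨F_exc hR m c y h3, ?_⟩
      rw [LinearMap.mem_ker]
      have := hR.N_F y
      rw [this, LinearMap.mem_ker.1 h4, map_zero, smul_zero]
    have : Nontrivial S := ⟨⟨f m, Submodule.mem_inf.2 ⟨hf m, LinearMap.mem_ker.2 (h1 m hm)⟩⟩, 0,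
      fun h5 => h2 (congrArg Subtype.val h5)⟩
    obtain ⟨α, hα⟩ := Module.End.exists_eigenvalue (R.F.restrict hS)
    obtain ⟨y, hy⟩ := hα.exists_hasEigenvector
    have hy1 : R.F y = α • (y : R.V) := congrArg Subtype.val hy.apply_eq_smul
    have hy0 : (y : R.V) ≠ 0 := fun h5 => hy.2 (Subtype.ext h5)
    obtain ⟨h3, h4⟩ := Submodule.mem_inf.1 y.2
    obtain ⟨w, hw, hw'⟩ := h m α y (exc_le m c h3) hy0 (LinearMap.mem_ker.1 h4) hy1
    have h5 := eigen_exc hq hR h3 hy0 hy1
    have h6 := weil_unique hq hw' h5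
    simp only [Nat.cast_zero] at hc
    omega
  · intro h m α x hx hx0 hN hF
    obtain ⟨w, hw⟩ := hR.weil m α x hx hx0 hF
    refine ⟨w, ?_, hw⟩
    by_contra hcon
    apply hx0
    refine h (w - m) (by push_cast; omega) x (exc_le_tot m _ ?_) (by rw [zero_add, pow_one, hN])
    refine Submodule.mem_iSup_of_mem α (Submodule.mem_iSup_of_mem ?_ ?_)
    · rwa [show (m : ℤ) + (w - m) = w by ring]
    · refine Submodule.mem_inf.2 ⟨hx, ?_⟩
      refine (Module.End.mem_maxGenEigenspace _ _ _).2 ⟨1, ?_⟩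
      simp [hF]

/-- The excesses are bounded. -/
lemma tot_eq_bot (hq : 1 < q) (hR : R.IsCoh q) {d : ℕ} (h : WeightRange R q d) {c : ℤ}
    (hc : (d : ℤ) < c) : R.tot q c = ⊥ := by
  classical
  have := hR.finite
  rw [eq_bot_iff]
  refine iSup_le fun m => ?_
  by_contra h2
  have h2' : R.exc q m c ≠ ⊥ := fun h3 => h2 (by rw [h3])
  obtain ⟨x, hx, hx0⟩ := Submodule.exists_mem_ne_zero_of_ne_bot h2'
  have : Nontrivial (R.exc q m c) := ⟨⟨x, hx⟩, 0, fun h5 => hx0 (congrArg Subtype.val h5)⟩
  obtain ⟨α, hα⟩ := Module.End.exists_eigenvalue (R.F.restrict (F_exc (q := q) hR m c))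
  obtain ⟨y, hy⟩ := hα.exists_hasEigenvector
  have hy1 : R.F y = α • (y : R.V) := congrArg Subtype.val hy.apply_eq_smul
  have hy0 : (y : R.V) ≠ 0 := fun h5 => hy.2 (Subtype.ext h5)
  have h5 := eigen_exc hq hR y.2 hy0 hy1
  have h6 := h m α y (exc_le m c y.2) hy0 hy1 _ h5
  omega

/-- The invariant cycle property bounds the invariants. -/
lemma bounded_of_cycles (h : InvariantCycles R q) : InvariantsBounded R q := by
  intro m α x hx hx0 hN hF
  obtain ⟨S, _, _, _, φ, sp, hsp, hw, hs⟩ := h m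
  obtain ⟨s, rfl⟩ := hs x hx hN
  have h1 : ∀ p : Polynomial Ω, sp ((Polynomial.aeval φ p) s) = (Polynomial.aeval R.F p) (sp s) := by
    intro p
    induction p using Polynomial.induction_on' with
    | add p p' h h' => simp [h, h']
    | monomial n a =>
      rw [Polynomial.aeval_monomial, Polynomial.aeval_monomial]
      simp only [Module.End.mul_apply, Module.algebraMap_end_apply, map_smul]
      congr 1
      induction n generalizing s with
      | zero => simp
      | succ n ih =>
        clear hF hN hx hx0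
        have h2 : ∀ (k : ℕ) (s : S), sp ((φ ^ k) s) = (R.F ^ k) (sp s) := by
          intro k
          induction k with
          | zero => intro s; simp
          | succ k ih => intro s; rw [pow_succ, pow_succ, Module.End.mul_apply,
              Module.End.mul_apply, ih, hsp]
        exact h2 _ s
  have h2 : (Polynomial.aeval R.F (minpoly Ω φ)) (sp s) = 0 := by
    rw [← h1, minpoly.aeval, LinearMap.zero_apply, map_zero]
  have h3 : ∀ p : Polynomial Ω, (Polynomial.aeval R.F p) (sp s) = p.eval α • sp s := by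
    intro p
    exact Module.End.aeval_apply_of_hasEigenvector (f := R.F) (μ := α)
      ⟨Module.End.mem_eigenspace_iff.2 hF, hx0⟩
  rw [h3] at h2
  have h4 : (minpoly Ω φ).eval α = 0 := (smul_eq_zero.1 h2).resolve_right hx0
  have h5 : φ.HasEigenvalue α := Module.End.hasEigenvalue_of_isRoot h4
  obtain ⟨t, ht⟩ := h5.exists_hasEigenvector
  exact hw α t ht.2 ht.apply_eq_smul

section main

variable {K : Type u} [Field K] {T : Theory.{u, v, w} K Ω}

/-- Adapted bases of the products of pure varieties. -/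
lemma adp_times (hT : T.IsLocal q) (hq : 1 < q) (X Z : SmVar.{u} K)
    (hX : ∀ m, (T.H X).MWPure q m) (hZ : ∀ m, (T.H Z).MWPure q m) (n : ℕ) :
    ∃ (I : Type) (_ : Fintype I) (a : I → ℤ), (T.H (times X Z n)).Adp q a a := by
  have h1 : ∀ Y : SmVar.{u} K, (∀ m, (T.H Y).MWPure q m) →
      ∃ (I : Type) (_ : Fintype I) (a : I → ℤ), (T.H Y).Adp q a a := by
    intro Y hY
    obtain ⟨S⟩ := exists_strings hq (hT.coh Y)
    have h := (mw_iff hq (hT.coh Y) S).1 hY
    have h2 : S.ct = S.wt := by
      funext p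
      unfold Strings.ct Strings.wt
      rw [h p.1]
    refine ⟨S.P, inferInstance, S.wt, ?_⟩
    have := adp_strings S
    rwa [h2] at this
  induction n with
  | zero => exact h1 X hX
  | succ n ih =>
    obtain ⟨I, _, a, ha⟩ := ih
    obtain ⟨J, _, c, hc⟩ := h1 Z hZ
    obtain ⟨κ, hκ⟩ := hT.kunneth (times X Z n) Z
    exact ⟨I × J, inferInstance, _, ha.prod hc (by omega) hκ⟩

lemma P_times (hT : T.IsLocal q) (hq : 1 < q) (X Z : SmVar.{u} K) (hZ : IsTest (T.H Z) q) (n : ℕ) :
    P (T.H (times X Z n)) q 0 → ∀ b ≤ n, P (T.H X) q b := by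
  obtain ⟨h1, h2⟩ := exists_test hq (hT.coh Z) hZ
  suffices H : ∀ b0, P (T.H (times X Z n)) q b0 → ∀ b, b0 ≤ b → b ≤ n + b0 → P (T.H X) q b by
    intro h b hb
    exact H 0 h b (by omega) (by omega)
  induction n with
  | zero =>
    intro b0 h b hb hb'
    obtain rfl : b = b0 := by omega
    exact h
  | succ n ih =>
    intro b0 h b hb hb'
    obtain ⟨κ, hκ⟩ := hT.kunneth (times X Z n) Z
    rcases Nat.lt_or_ge (n + b0) b with h3 | h3
    · exact ih (b0 + 1) (P_succ_of_prod hq (hT.coh _) hκ h h2) b (by omega) (by omega)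
    · exact ih b0 (P_of_prod hq hκ h h1) b (by omega) (by omega)

theorem main (hT : T.IsLocal q) (hq : 1 < q) (X Z : SmVar.{u} K)
    (hX : WeightRange (T.H X) q X.dim) (hZ : IsTest (T.H Z) q) :
    List.TFAE [∀ m, (T.H X).MWPure q m,
      ∀ n, InvariantsBounded (T.H (times X Z n)) q,
      InvariantsBounded (T.H (times X Z (X.dim - 1))) q,
      ∀ n, (T.H (times X Z n)).inv = (T.H (times X Z n)).pred q,
      (T.H (times X Z (X.dim - 1))).inv = (T.H (times X Z (X.dim - 1))).pred q] := by
  have hB1 : StB1.{w, v} := Pool.Agent.Y954.MW.stB1 Pool.Agent.Y141.MW.stL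
  tfae_have 1 → 4 := by
    intro h n
    obtain ⟨I, _, a, ha⟩ := adp_times hT hq X Z h hZ.pure n
    rw [ha.inv_eq hB1, ha.pred_eq hq (hT.coh _)]
  tfae_have 4 → 2 := fun h n =>
    (bounded_iff hq (hT.coh _)).2 (P_zero_of_inv_eq hq (hT.coh _) (h n))
  tfae_have 2 → 3 := fun h => h _
  tfae_have 4 → 5 := fun h => h _
  tfae_have 5 → 3 := fun h =>
    (bounded_iff hq (hT.coh _)).2 (P_zero_of_inv_eq hq (hT.coh _) h)
  tfae_have 3 → 1 := by
    intro h
    have h1 := P_times hT hq X Z hZ _ ((bounded_iff hq (hT.coh _)).1 h)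
    refine pure_of_P hq (hT.coh X) fun b => ?_
    rcases Nat.lt_or_ge b X.dim with h2 | h2
    · exact h1 b (by omega)
    · intro c hc x hx _
      rw [tot_eq_bot hq (hT.coh X) hX (by omega)] at hx
      exact (Submodule.mem_bot Ω).1 hx
  tfae_finish

end main

end Pool.Agent.U644.MW
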