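import Pool.Agent.U644.MW.Defs
import Pool.Agent.Y163.MW.Asm
import Pool.Agent.Y954.MW.B1

/-!
# The monodromy-weight conjecture and products with a test variety
-/

set_option autoImplicit false

open Module TensorProduct

namespace Pool.Agent.U644.MW

universe u v w

open Pool.Agent.H914 Pool.Agent.Y143 Pool.Agent.Y163.MW Pool.Agent.Y163.MW.Coh

variable {Ω : Type w} [Field Ω] [CharZero Ω] {R R' R'' : Coh.{v, w} Ω} {q : ℕ}

/-- the kernel of `N ^ (b + 1)` has excess at most `b` -/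
def P (R : Coh.{v, w} Ω) (q b : ℕ) : Prop :=
  ∀ c : ℤ, (b : ℤ) < c → ∀ x ∈ R.tot q c, (R.N ^ (b + 1)) x = 0 → x = 0

lemma pow_tot (hq : 1 < q) (hR : R.IsCoh q) (k : ℕ) (c : ℤ) :
    ∀ x ∈ R.tot q c, (R.N ^ k) x ∈ R.tot q (c - 2 * k) := by
  induction k with
  | zero => intro x hx; simpa using hx
  | succ k ih =>
    intro x hx
    rw [pow_succ', Module.End.mul_apply]
    have := N_tot hq hR _ _ (ih x hx)
    rwa [show c - 2 * (k : ℤ) - 2 = c - 2 * ((k + 1 : ℕ) : ℤ) by push_cast; ring] at this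

/-- The vectors of the test variety. -/
lemma exists_test [IsAlgClosed Ω] (hq : 1 < q) (hR : R.IsCoh q) (h : IsTest R q) :
    (∃ y ∈ R.tot q 0, y ≠ 0 ∧ R.N y = 0) ∧
      ∃ e ∈ R.tot q 1, R.N e ∈ R.tot q (-1) ∧ R.N e ≠ 0 ∧ R.N (R.N e) = 0 := by
  constructor
  · obtain ⟨y, hy, h0, hF, hN⟩ := h.unit
    refine ⟨y, exc_le_tot 0 0 ?_, h0, hN⟩
    have h1 : IsWeilNumber q (((0 : ℕ) : ℤ) + 0) (1 : Ω) := by
      have := weil_natPow (Ω := Ω) (q := q) (by omega) 0
      simpa using this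
    refine Submodule.mem_iSup_of_mem 1 (Submodule.mem_iSup_of_mem h1 ?_)
    refine Submodule.mem_inf.2 ⟨hy, ?_⟩
    refine Module.End.mem_maxGenEigenspace _ _ _ |>.2 ⟨1, ?_⟩
    simp [hF]
  · obtain ⟨S⟩ := exists_strings hq hR
    obtain ⟨s, hs⟩ := exists_len S h.ne_zero
    have htop := (mw_iff hq hR S).1 h.pure s
    have h1 : S.len s = 1 := by
      by_contra hcon
      have h2 : 2 ≤ S.len s := by omega
      have e1 := S.succ s ⟨0, by omega⟩
      have e2 := S.succ s ⟨1, by omega⟩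
      have e3 : (⟨0, by omega⟩ : Fin (S.len s)).succ = (⟨1, by omega⟩ : Fin (S.len s)).castSucc := rfl
      rw [e3] at e1
      have h3 := h.sq_zero (S.b ⟨s, (⟨0, by omega⟩ : Fin (S.len s)).castSucc⟩)
      rw [e1, e2] at h3
      exact S.b.ne_zero _ h3
    have e1 := S.succ s ⟨0, by omega⟩
    refine ⟨S.b ⟨s, (⟨0, by omega⟩ : Fin (S.len s)).castSucc⟩, ?_, ?_, ?_, h.sq_zero _⟩
    · have hm := S.mem s (⟨0, by omega⟩ : Fin (S.len s)).castSucc
      have e : S.top s - 2 * (((⟨0, by omega⟩ : Fin (S.len s)).castSucc : ℕ) : ℤ) = 1 := by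
        rw [Fin.val_castSucc]
        simp only [Nat.cast_zero]
        omega
      rw [e] at hm
      exact hm
    · rw [e1]
      have hm := S.mem s (⟨0, by omega⟩ : Fin (S.len s)).succ
      have e : S.top s - 2 * (((⟨0, by omega⟩ : Fin (S.len s)).succ : ℕ) : ℤ) = -1 := by
        rw [Fin.val_succ]
        simp only [zero_add, Nat.cast_one]
        omega
      rw [e] at hm
      exact hm
    · rw [e1]
      exact S.b.ne_zero _

lemma tmul_left_cancel {V V' : Type*} [AddCommGroup V] [Module Ω V] [AddCommGroup V'] [Module Ω V']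
    {x : V} {y : V'} (hx : x ≠ 0) (h : x ⊗ₜ[Ω] y = 0) : y = 0 := by
  have h1 : ∃ φ : Module.Dual Ω V, φ x ≠ 0 := by
    by_contra hcon
    push Not at hcon
    exact hx ((Module.forall_dual_apply_eq_zero_iff Ω x).1 hcon)
  obtain ⟨φ, hφ⟩ := h1
  have h2 := congrArg ((TensorProduct.lid Ω V').toLinearMap ∘ₗ TensorProduct.map φ LinearMap.id) h
  rw [LinearMap.comp_apply, TensorProduct.map_tmul, LinearMap.id_apply, map_zero] at h2
  have h3 : φ x • y = 0 := by simpa using h2
  exact (smul_eq_zero.1 h3).resolve_left hφ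

section step

variable {κ : R.V ⊗[Ω] R'.V ≃ₗ[Ω] R''.V}

/-- the product with the unit -/
lemma P_of_prod (hq : 1 < q) (hκ : IsKunneth R R' R'' κ) {b : ℕ} (h : P R'' q b)
    (h' : ∃ y ∈ R'.tot q 0, y ≠ 0 ∧ R'.N y = 0) : P R q b := by
  obtain ⟨y, hy, hy0, hyN⟩ := h'
  intro c hc x hx h0
  have hN : ∀ k : ℕ, ∀ x, (R''.N ^ k) (κ (x ⊗ₜ y)) = κ ((R.N ^ k) x ⊗ₜ y) := by
    intro k
    induction k with
    | zero => intro x; simp
    | succ k ih =>
      intro x
      have h1 : R''.N (κ (x ⊗ₜ y)) = κ (R.N x ⊗ₜ y) + κ (x ⊗ₜ R'.N y) := hκ.monodromy x y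
      rw [pow_succ, Module.End.mul_apply, h1, hyN, tmul_zero, map_zero, add_zero, ih, pow_succ,
        Module.End.mul_apply]
  have h2 : κ (x ⊗ₜ y) ∈ R''.tot q c := by
    have := kunneth_tot (by omega) hκ hx hy
    simpa using this
  have h3 := h c hc _ h2 (by rw [hN, h0, zero_tmul, map_zero])
  have h4 : x ⊗ₜ[Ω] y = 0 := (LinearEquiv.map_eq_zero_iff κ).1 h3
  by_contra hx0
  exact hy0 (tmul_left_cancel hx0 h4)

/-- the step -/
lemma P_succ_of_prod (hq : 1 < q) (hR : R.IsCoh q) (hκ : IsKunneth R R' R'' κ) {b : ℕ}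
    (h : P R'' q b)
    (h' : ∃ e ∈ R'.tot q 1, R'.N e ∈ R'.tot q (-1) ∧ R'.N e ≠ 0 ∧ R'.N (R'.N e) = 0) :
    P R q (b + 1) := by
  obtain ⟨e, he, hf, hf0, hNf⟩ := h'
  intro c hc x hx h0
  have hN1 : ∀ (x : R.V) (y : R'.V), R''.N (κ (x ⊗ₜ y)) = κ (R.N x ⊗ₜ y) + κ (x ⊗ₜ R'.N y) :=
    hκ.monodromy
  have hNf' : ∀ k : ℕ, ∀ x, (R''.N ^ k) (κ (x ⊗ₜ R'.N e)) = κ ((R.N ^ k) x ⊗ₜ R'.N e) := by
    intro k
    induction k with
    | zero => intro x; simp
    | succ k ih =>
      intro x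
      rw [pow_succ, Module.End.mul_apply, hN1, hNf, tmul_zero, map_zero, add_zero, ih, pow_succ,
        Module.End.mul_apply]
  have hNe : ∀ k : ℕ, ∀ x, (R''.N ^ (k + 1)) (κ (x ⊗ₜ e)) =
      κ ((R.N ^ (k + 1)) x ⊗ₜ e) + ((k + 1 : ℕ) : Ω) • κ ((R.N ^ k) x ⊗ₜ R'.N e) := by
    intro k
    induction k with
    | zero => intro x; simp [hN1]
    | succ k ih =>
      intro x
      rw [pow_succ, Module.End.mul_apply, hN1, map_add, ih, hNf', pow_succ (R.N) (k + 1),
        Module.End.mul_apply, add_assoc]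
      congr 1
      have e1 : (R.N ^ k) (R.N x) = (R.N ^ (k + 1)) x := by
        rw [pow_succ, Module.End.mul_apply]
      rw [e1]
      push_cast
      module
  have hb : ((b + 1 : ℕ) : Ω) ≠ 0 := Nat.cast_ne_zero.2 (by omega)
  -- the vector
  have hx' : κ (x ⊗ₜ R'.N e) - (((b + 1 : ℕ) : Ω))⁻¹ • κ (R.N x ⊗ₜ e) ∈ R''.tot q (c - 1) := by
    refine Submodule.sub_mem _ ?_ (Submodule.smul_mem _ _ ?_)
    · have := kunneth_tot (by omega) hκ hx hf
      rwa [show c + -1 = c - 1 by ring] at this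
    · have := kunneth_tot (by omega) hκ (N_tot hq hR _ _ hx) he
      rwa [show c - 2 + 1 = c - 1 by ring] at this
  have h1 := h (c - 1) (by push_cast at hc; omega) _ hx' (by
    rw [map_sub, map_smul, hNf', hNe, ← Module.End.mul_apply, ← Module.End.mul_apply, ← pow_succ,
      ← pow_succ, show b + 1 + 1 = b + 2 by ring]
    have h2 : (R.N ^ (b + 2)) x = 0 := h0
    rw [h2, zero_tmul, map_zero, zero_add, smul_smul, inv_mul_cancel₀ hb, one_smul, sub_self])
  by_contra hx0
  have h3 : κ (x ⊗ₜ R'.N e) = (((b + 1 : ℕ) : Ω))⁻¹ • κ (R.N x ⊗ₜ e) := sub_eq_zero.1 h1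
  have h4 : x ⊗ₜ[Ω] R'.N e = (((b + 1 : ℕ) : Ω))⁻¹ • (R.N x ⊗ₜ[Ω] e) := by
    apply κ.injective
    rw [h3, map_smul]
  have h5 := congrArg (TensorProduct.map (LinearMap.id : R.V →ₗ[Ω] R.V) R'.N) h4
  rw [map_smul, TensorProduct.map_tmul, TensorProduct.map_tmul, LinearMap.id_apply,
    LinearMap.id_apply, hNf, tmul_zero] at h5
  have h6 : R.N x ⊗ₜ[Ω] R'.N e = 0 := (smul_eq_zero.1 h5.symm).resolve_left (inv_ne_zero hb)
  have h7 : R.N x = 0 := by
    by_contra h8
    exact hf0 (tmul_left_cancel h8 h6)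
  rw [h7, zero_tmul, smul_zero] at h4
  exact hf0 (tmul_left_cancel hx0 h4)

end step

/-- The bounds for the kernels of the powers give the monodromy-weight conjecture. -/
lemma pure_of_P [IsAlgClosed Ω] (hq : 1 < q) (hR : R.IsCoh q) (h : ∀ b, P R q b) :
    ∀ m, R.MWPure q m := by
  have := hR.finite
  rw [← centred_tot_iff hq hR]
  intro a
  have hinj : ∀ x ∈ R.tot q a, (R.N ^ a) x = 0 → x = 0 := by
    intro x hx h0
    rcases Nat.eq_zero_or_pos a with ha | ha
    · subst ha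
      simpa using h0
    · obtain ⟨b, rfl⟩ : ∃ b, a = b + 1 := ⟨a - 1, by omega⟩
      exact h b ((b + 1 : ℕ) : ℤ) (by push_cast; omega) x hx h0
  refine ⟨hinj, ?_⟩
  have hmap : ∀ x ∈ R.tot q a, (R.N ^ a) x ∈ R.tot q (-(a : ℤ)) := by
    intro x hx
    have := pow_tot hq hR a a x hx
    rwa [show (a : ℤ) - 2 * a = -a by ring] at this
  let φ : R.tot q a →ₗ[Ω] R.tot q (-(a : ℤ)) := (R.N ^ a).restrict hmap
  have hφ : Function.Injective φ := by
    rw [← LinearMap.ker_eq_bot, LinearMap.ker_eq_bot']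
    intro x hx
    apply Subtype.ext
    exact hinj x x.2 (congrArg Subtype.val hx)
  have hφ' : Function.Surjective φ :=
    (LinearMap.injective_iff_surjective_of_finrank_eq_finrank (finrank_tot_neg hq hR a)).1 hφ
  intro y hy
  obtain ⟨x, hx⟩ := hφ' ⟨y, hy⟩
  exact ⟨x, x.2, congrArg Subtype.val hx⟩

lemma repr_N {gr : ℤ → Submodule Ω R.V} (S : Strings gr R.N) (x : R.V) (s : S.ι)
    (i : Fin (S.len s)) : S.b.repr (R.N x) ⟨s, i.succ⟩ = S.b.repr x ⟨s, i.castSucc⟩ := by
  classical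
  have h : (Finsupp.lapply ⟨s, i.succ⟩ ∘ₗ S.b.repr.toLinearMap ∘ₗ R.N : R.V →ₗ[Ω] Ω) =
      Finsupp.lapply ⟨s, i.castSucc⟩ ∘ₗ S.b.repr.toLinearMap := by
    apply S.b.ext
    rintro ⟨t, j⟩
    simp only [LinearMap.comp_apply, LinearEquiv.coe_coe, Finsupp.lapply_apply,
      Basis.repr_self]
    induction j using Fin.lastCases with
    | last =>
      rw [S.last, map_zero, Finsupp.zero_apply, Finsupp.single_apply, if_neg]
      rintro h
      rw [Sigma.mk.inj_iff] at h
      obtain ⟨h1, h2⟩ := h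
      subst h1
      have h3 := eq_of_heq h2
      have := congrArg Fin.val h3
      simp at this
      have := i.2
      omega
    | cast j =>
      rw [S.succ, Basis.repr_self, Finsupp.single_apply, Finsupp.single_apply]
      congr 1
      rw [Sigma.mk.inj_iff, Sigma.mk.inj_iff, eq_iff_iff]
      constructor
      · rintro ⟨h1, h2⟩
        subst h1
        refine ⟨rfl, ?_⟩
        have h3 := Fin.succ_injective _ (eq_of_heq h2)
        rw [h3]
      · rintro ⟨h1, h2⟩
        subst h1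
        refine ⟨rfl, ?_⟩
        have h3 := Fin.castSucc_injective _ (eq_of_heq h2)
        rw [h3]
  exact LinearMap.congr_fun h x

/-- For a cohomology with strings: `inv = pred` implies that the kernel of `N` has excess at most
zero. -/
lemma P_zero_of_inv_eq [IsAlgClosed Ω] (hq : 1 < q) (hR : R.IsCoh q) (h : R.inv = R.pred q) :
    P R q 0 := by
  classical
  have := hR.finite
  obtain ⟨S⟩ := exists_strings hq hR
  have H := adp_strings S
  -- the strings give independent elements of the kernel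
  have h1 : Fintype.card S.ι ≤ R.inv := by
    let v : S.ι → LinearMap.ker R.N := fun s => ⟨S.b ⟨s, Fin.last _⟩, S.last s⟩
    have hv : LinearIndependent Ω v := by
      apply LinearIndependent.of_comp (LinearMap.ker R.N).subtype
      exact S.b.linearIndependent.comp (fun s : S.ι => (⟨s, Fin.last _⟩ : Σ s : S.ι, Fin (S.len s + 1)))
        (fun s t hst => congrArg Sigma.fst hst)
    exact hv.fintype_card_le_finrank
  have h2 : R.pred q = Nat.card {p : S.P // S.wt p = 0} + Nat.card {p : S.P // S.wt p = -1} := by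
    unfold pred
    rw [finrank_tot_neg hq hR 1, H.finrank_tot hq hR, H.finrank_tot hq hR]
  have h3 : Nat.card {p : S.P // S.wt p = 0} + Nat.card {p : S.P // S.wt p = -1} ≤
      Nat.card {s : S.ι // S.top s - 2 * S.len s ≤ 0} := by
    rw [← Nat.card_sum]
    let f : {p : S.P // S.wt p = 0} ⊕ {p : S.P // S.wt p = -1} →
        {s : S.ι // S.top s - 2 * S.len s ≤ 0} := fun z => match z with
      | .inl p => ⟨p.1.1, by
          have h4 := p.2
          have h5 := p.1.2.2
          unfold Strings.wt at h4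
          omega⟩
      | .inr p => ⟨p.1.1, by
          have h4 := p.2
          have h5 := p.1.2.2
          unfold Strings.wt at h4
          omega⟩
    refine Nat.card_le_card_of_injective f ?_
    rintro (⟨⟨s, i⟩, hi⟩ | ⟨⟨s, i⟩, hi⟩) (⟨⟨t, j⟩, hj⟩ | ⟨⟨t, j⟩, hj⟩) hst
    all_goals
      have h4 : s = t := congrArg Subtype.val hst
      subst h4
      unfold Strings.wt at hi hj
      simp only at hi hj
    · have h5 : i = j := Fin.ext (by omega)
      subst h5; rfl
    · omega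
    · omega
    · have h5 : i = j := Fin.ext (by omega)
      subst h5; rfl
  have h4 : ∀ s : S.ι, S.top s - 2 * S.len s ≤ 0 := by
    by_contra hcon
    push Not at hcon
    obtain ⟨s, hs⟩ := hcon
    have h5 : Nat.card {s : S.ι // S.top s - 2 * S.len s ≤ 0} < Nat.card S.ι := by
      rw [Nat.card_eq_fintype_card, Nat.card_eq_fintype_card]
      exact Fintype.card_subtype_lt (x := s) (by omega)
    rw [Nat.card_eq_fintype_card (α := S.ι)] at h5
    omega
  intro c hc x hx h0
  rw [zero_add, pow_one] at h0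
  have hx' : x ∈ Submodule.span Ω (S.b '' {p | S.wt p = c}) := by
    rw [← gr_eq_span (indep_tot hq hR) S.b S.wt S.mem' c]
    exact hx
  rw [Basis.mem_span_image] at hx'
  apply S.b.repr.map_eq_zero_iff.1
  ext ⟨s, i⟩
  induction i using Fin.lastCases with
  | last =>
    by_contra h5
    have h6 := hx' (Finsupp.mem_support_iff.2 h5)
    have h7 : S.wt ⟨s, Fin.last _⟩ = c := h6
    unfold Strings.wt at h7
    simp only [Fin.val_last] at h7
    have := h4 s
    simp only [Nat.cast_zero] at hc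
    omega
  | cast i =>
    rw [← repr_N S x s i, h0, map_zero]
    rfl

end Pool.Agent.U644.MW
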