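import Pool.Agent.Y163.MW.Defs

/-!
# Products with a test variety

`T.H X` is the cohomology of the smooth proper variety `X` over a local field, with a geometric
Frobenius element `F` and the monodromy operator `N` (`Pool.Agent.Y163.MW.Coh`).
-/

set_option autoImplicit false

open Module

namespace Pool.Agent.U644.MW

universe u v w

open Pool.Agent.H914 Pool.Agent.Y143 Pool.Agent.Y163.MW

/-- The product `X × Z ^ n`. -/
noncomputable def times {K : Type u} [Field K] (X Z : SmVar.{u} K) : ℕ → SmVar.{u} K
  | 0 => X
  | n + 1 => (times X Z n).prod Z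

variable {Ω : Type w} [Field Ω] [CharZero Ω]

/-- The inertia invariants (the kernel of `N`) of the `H^m` have weights at most `m`: the eigenvalues
of `F` on the kernel of `N` in `H^m` are `q`-Weil numbers of weights at most `m`. -/
def InvariantsBounded (R : Coh.{v, w} Ω) (q : ℕ) : Prop :=
  ∀ (m : ℕ) (α : Ω) (x : R.V), x ∈ R.gr m → x ≠ 0 → R.N x = 0 → R.F x = α • x →
    ∃ w : ℤ, w ≤ m ∧ IsWeilNumber q w α

/-- A test variety: `H^0` contains a nonzero vector fixed by `F` and killed by `N` (the class `1`),
the monodromy-weight conjecture is known, `N ≠ 0` and `N ^ 2 = 0`. For example a Tate curve, or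
any curve whose Jacobian does not have potentially good reduction. -/
structure IsTest (R : Coh.{v, w} Ω) (q : ℕ) : Prop where
  unit : ∃ y ∈ R.gr 0, y ≠ 0 ∧ R.F y = y ∧ R.N y = 0
  pure : ∀ m, R.MWPure q m
  ne_zero : R.N ≠ 0
  sq_zero : ∀ x, R.N (R.N x) = 0

/-- The weights of the `H^m` are between `m - d` and `m + d` (known for `d = dim X`: the weights of
`H^m` are between `0` and `2 m`, and between `2 (m - d)` and `2 d`). -/
def WeightRange (R : Coh.{v, w} Ω) (q d : ℕ) : Prop :=
  ∀ (m : ℕ) (α : Ω) (x : R.V), x ∈ R.gr m → x ≠ 0 → R.F x = α • x →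
    ∀ w : ℤ, IsWeilNumber q w α → w ≤ m + d

/-- The local invariant cycle property with weights: for each `m` the kernel of `N` in `H^m` is
contained in the image of a finite-dimensional space `S` with a Frobenius operator `φ` whose
eigenvalues are `q`-Weil numbers of weights at most `m`, under a map which is compatible with the
Frobenius operators. (`S` is the `m`-th cohomology group of the special fibre of a proper model; by
Deligne its weights are at most `m`.) -/
def InvariantCycles (R : Coh.{v, w} Ω) (q : ℕ) : Prop :=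
  ∀ m : ℕ, ∃ (S : Type v) (_ : AddCommGroup S) (_ : Module Ω S) (_ : Module.Finite Ω S)
    (φ : Module.End Ω S) (sp : S →ₗ[Ω] R.V), (∀ s, sp (φ s) = R.F (sp s)) ∧
    (∀ (α : Ω) (s : S), s ≠ 0 → φ s = α • s → ∃ w : ℤ, w ≤ m ∧ IsWeilNumber q w α) ∧
    ∀ x ∈ R.gr m, R.N x = 0 → ∃ s, sp s = x

end Pool.Agent.U644.MW
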